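import Pool.Agent.Q256.MP.Stm
import Pool.Agent.W32.GE.Pts

/-!
# Systems with many points such that the point and its image are of small height
-/

set_option autoImplicit false

open Height NumberField

namespace Pool.Agent.Q176.MP

open Pool.Agent.W276.GE Pool.Agent.Q256.MP

theorem le_choose (N d : ℕ) : d + 1 ≤ (N + 1 + d).choose (N + 1) := by
  induction N with
  | zero => rw [zero_add, Nat.choose_one_right, add_comm]
  | succ N ih =>
    have h : N + 1 + 1 + d = (N + 1 + d) + 1 := by ring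
    rw [h, Nat.choose_succ_succ]
    exact ih.trans (Nat.le_add_right _ _)

theorem m_le {N d m : ℕ} (hN : 1 ≤ N) (hm : m ≤ d + 1) : m ≤ MM N d := by
  obtain ⟨N, rfl⟩ : ∃ k, N = k + 1 := ⟨N - 1, by omega⟩
  change m ≤ Fintype.card (E (N + 1 + 1) d)
  rw [card_E]
  exact hm.trans (le_choose N d)

theorem sep_smul {m n : ℕ} {z : Fin m → Fin n → ℂ} (hz : Sep z) {b : Fin m → ℂ}
    (hb : ∀ i, b i ≠ 0) : Sep (fun i j => b i * z i j) := by
  refine ⟨fun i h => hz.1 i ?_, fun i j hij c h => hz.2 i j hij ((b i)⁻¹ * c * b j) ?_⟩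
  · funext k
    have h1 := congrFun h k
    exact (mul_eq_zero.1 h1).resolve_left (hb i)
  · funext k
    have h1 : b i * z i k = c * (b j * z j k) := congrFun h k
    change z i k = ((b i)⁻¹ * c * b j) * z j k
    have h2 := hb i
    field_simp
    linear_combination h1

theorem smc (h1 : S_vdim) (h2 : S_tup) (h3 : S_norm) : S_smc := by
  intro N D m hN hD hm
  obtain ⟨c₀, C₂, hA⟩ := Pool.Agent.W32.GE.pts D
  refine ⟨c₀ * (2 * m * (N + 1)), fun d hd => ?_⟩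
  obtain ⟨C₁, hC₁, hT⟩ := h2 N d m hm
  have hC₂ : 0 < max C₂ 1 := lt_max_of_lt_right one_pos
  refine ⟨C₁ * 5 ^ ((MM N d - m) * N) * (max C₂ 1) ^ (2 * m * (N + 1)), by positivity, ?_⟩
  intro H X hH hX
  obtain ⟨A, hAc, hA2⟩ := hA X hX
  have hX0 : 0 < X := lt_of_lt_of_le one_pos hX
  have hH0 : (1 : ℝ) ≤ H := by exact_mod_cast hH
  have hsub : {F : Sy N d | F ∈ Fb (N + 1) d H ∧ NoZero F ∧ Many (N + 1) D m
      (fun K _ _ P => mulHeight P ≤ X ∧ mulHeight (fm F K P) ≤ X)} ⊆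
      {F : Sy N d | F ∈ Fb (N + 1) d H ∧ ∃ z w : Fin m → Fin (N + 1) → ℂ, (∀ i j, z i j ∈ A) ∧
      (∀ i j, w i j ∈ A) ∧ (∀ i, w i ≠ 0) ∧
      (nzj z d (2 * H) : ℝ) ≤ (((2 * (2 * H) + 1) ^ (MM N d - m) : ℕ) : ℝ) ∧ Cf z w F} := by
    rintro F ⟨hF, hF0, z, hz, hrep⟩
    obtain ⟨b, w, hb, hbA, hwA, hw0, hCf⟩ := h3 N D d m X A hA2 F hF0 z hrep
    refine ⟨hF, fun i j => b i * z i j, w, hbA, hwA, hw0, ?_, hCf⟩
    exact_mod_cast h1 (N + 1) d m (2 * H) hd _ (sep_smul hz hb)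
  have hfin : {F : Sy N d | F ∈ Fb (N + 1) d H ∧ ∃ z w : Fin m → Fin (N + 1) → ℂ, (∀ i j, z i j ∈ A) ∧
      (∀ i j, w i j ∈ A) ∧ (∀ i, w i ≠ 0) ∧
      (nzj z d (2 * H) : ℝ) ≤ (((2 * (2 * H) + 1) ^ (MM N d - m) : ℕ) : ℝ) ∧ Cf z w F}.Finite :=
    (Finset.finite_toSet (Fb (N + 1) d H)).subset fun F hF => hF.1
  have hle := Set.ncard_le_ncard hsub hfin
  have hT' := hT H hH A _ (Nat.cast_nonneg ((2 * (2 * H) + 1) ^ (MM N d - m)))
  have hcnt : cnt N d H (fun F => Many (N + 1) D m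
      (fun K _ _ P => mulHeight P ≤ X ∧ mulHeight (fm F K P) ≤ X)) ≤
      C₁ * (H : ℝ) ^ (MM N d) * (((2 * (2 * H) + 1) ^ (MM N d - m) : ℕ) : ℝ) ^ N *
        (A.card : ℝ) ^ (2 * m * (N + 1)) := by
    refine le_trans ?_ hT'
    unfold cnt
    exact_mod_cast hle
  refine hcnt.trans ?_
  have e1 : (((2 * (2 * H) + 1) ^ (MM N d - m) : ℕ) : ℝ) ^ N ≤
      5 ^ ((MM N d - m) * N) * (H : ℝ) ^ ((MM N d - m) * N) := by
    rw [← mul_pow, Nat.cast_pow, ← pow_mul]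
    refine pow_le_pow_left₀ (Nat.cast_nonneg _) ?_ _
    push_cast
    linarith
  have e2 : (A.card : ℝ) ^ (2 * m * (N + 1)) ≤
      (max C₂ 1) ^ (2 * m * (N + 1)) * X ^ (c₀ * (2 * m * (N + 1))) := by
    rw [pow_mul X, ← mul_pow]
    refine pow_le_pow_left₀ (Nat.cast_nonneg _) ?_ _
    refine hAc.trans ?_
    exact mul_le_mul_of_nonneg_right (le_max_left _ _) (by positivity)
  have e3 : MM N d + (MM N d - m) * N = QQ N d - m * N := by
    have h4 := m_le hN hd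
    obtain ⟨k, hk⟩ := Nat.exists_eq_add_of_le h4
    change MM N d + (MM N d - m) * N = (N + 1) * MM N d - m * N
    rw [hk]
    have h5 : m + k - m = k := by omega
    rw [h5]
    have h6 : (N + 1) * (m + k) = (m + k + k * N) + m * N := by ring
    rw [h6, Nat.add_sub_cancel]
  calc C₁ * (H : ℝ) ^ (MM N d) * (((2 * (2 * H) + 1) ^ (MM N d - m) : ℕ) : ℝ) ^ N *
        (A.card : ℝ) ^ (2 * m * (N + 1))
      ≤ C₁ * (H : ℝ) ^ (MM N d) * (5 ^ ((MM N d - m) * N) * (H : ℝ) ^ ((MM N d - m) * N)) *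
        ((max C₂ 1) ^ (2 * m * (N + 1)) * X ^ (c₀ * (2 * m * (N + 1)))) := by
        gcongr
    _ = C₁ * 5 ^ ((MM N d - m) * N) * (max C₂ 1) ^ (2 * m * (N + 1)) *
        X ^ (c₀ * (2 * m * (N + 1))) * (H : ℝ) ^ (MM N d + (MM N d - m) * N) := by
        rw [pow_add]
        ring
    _ = _ := by rw [e3]

end Pool.Agent.Q176.MP
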